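import Mathlib

/-! Bit tricks: digit sums and a parallel popcount, in a form that the kernel evaluates fast. -/

namespace Pool.Agent.Helper14.Tri

/-- Sum of the `L` lowest digits of `x` in base `2^w`. -/
def ds (w : ℕ) : ℕ → ℕ → ℕ
  | 0, _ => 0
  | L + 1, x => x % 2 ^ w + ds w L (x / 2 ^ w)

/-- Mask with `L` blocks of `2w` bits, the lower `w` bits of each block set. -/
def mk (w : ℕ) (L : ℕ) : ℕ :=
  Nat.rec 0 (fun _ r => Nat.add (Nat.mul (Nat.pow 2 (Nat.mul 2 w)) r) (Nat.sub (Nat.pow 2 w) 1)) L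

theorem mk_zero (w : ℕ) : mk w 0 = 0 := rfl

theorem mk_succ (w L : ℕ) : mk w (L + 1) = 2 ^ (2 * w) * mk w L + (2 ^ w - 1) := rfl

/-- One step of the parallel popcount. -/
def fold1 (w M x : ℕ) : ℕ :=
  Nat.add (Nat.land x M) (Nat.land (Nat.shiftRight x w) M)

theorem fold1_def (w M x : ℕ) : fold1 w M x = (x &&& M) + ((x >>> w) &&& M) := rfl

theorem and_split (i a b c d : ℕ) (hb : b < 2 ^ i) (hd : d < 2 ^ i) :
    (2 ^ i * a + b) &&& (2 ^ i * c + d) = 2 ^ i * (a &&& c) + (b &&& d) := by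
  apply Nat.eq_of_testBit_eq
  intro j
  have hbd : b &&& d < 2 ^ i := lt_of_le_of_lt Nat.and_le_left hb
  rw [Nat.testBit_and, Nat.testBit_two_pow_mul_add _ hb, Nat.testBit_two_pow_mul_add _ hd,
    Nat.testBit_two_pow_mul_add _ hbd]
  split_ifs with h
  · rw [Nat.testBit_and]
  · rw [Nat.testBit_and]

theorem fold1_split (w L x : ℕ) (hw : 1 ≤ w) :
    fold1 w (mk w (L + 1)) x =
      2 ^ (2 * w) * fold1 w (mk w L) (x / 2 ^ (2 * w)) + (x % 2 ^ w + (x / 2 ^ w) % 2 ^ w) := by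
  set X := x / 2 ^ (2 * w) with hX
  have h2w : 2 ^ (2 * w) = 2 ^ w * 2 ^ w := by rw [two_mul, pow_add]
  have hpos : 0 < 2 ^ w := by positivity
  have hm : 2 ^ w - 1 < 2 ^ (2 * w) := by
    have : 2 ^ w ≤ 2 ^ (2 * w) := Nat.pow_le_pow_right (by norm_num) (by omega)
    omega
  have e1 : x = 2 ^ (2 * w) * X + x % 2 ^ (2 * w) := by
    rw [hX]; exact (Nat.div_add_mod _ _).symm
  have p1 : x &&& mk w (L + 1) = 2 ^ (2 * w) * (X &&& mk w L) + x % 2 ^ w := by
    rw [mk_succ]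
    conv_lhs => rw [e1]
    rw [and_split _ _ _ _ _ (Nat.mod_lt _ (by positivity)) hm]
    congr 1
    rw [Nat.and_two_pow_sub_one_eq_mod, h2w, Nat.mod_mul_right_mod]
  have e2 : x >>> w = 2 ^ (2 * w) * (X >>> w) + (2 ^ w * (X % 2 ^ w) + (x / 2 ^ w) % 2 ^ w) := by
    rw [Nat.shiftRight_eq_div_pow, Nat.shiftRight_eq_div_pow]
    have hXX : X = x / 2 ^ w / 2 ^ w := by rw [hX, h2w, Nat.div_div_eq_div_mul]
    rw [hXX, h2w]
    set y := x / 2 ^ w with hy
    have a1 := Nat.div_add_mod y (2 ^ w)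
    have a2 := Nat.div_add_mod (y / 2 ^ w) (2 ^ w)
    calc y = 2 ^ w * (y / 2 ^ w) + y % 2 ^ w := a1.symm
      _ = 2 ^ w * (2 ^ w * (y / 2 ^ w / 2 ^ w) + y / 2 ^ w % 2 ^ w) + y % 2 ^ w := by rw [a2]
      _ = _ := by ring
  have hlow : 2 ^ w * (X % 2 ^ w) + (x / 2 ^ w) % 2 ^ w < 2 ^ (2 * w) := by
    have b1 : X % 2 ^ w ≤ 2 ^ w - 1 := by
      have := Nat.mod_lt X hpos; omega
    have b2 : (x / 2 ^ w) % 2 ^ w < 2 ^ w := Nat.mod_lt _ hpos
    calc 2 ^ w * (X % 2 ^ w) + (x / 2 ^ w) % 2 ^ w < 2 ^ w * (2 ^ w - 1) + 2 ^ w := by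
            have := Nat.mul_le_mul_left (2 ^ w) b1; omega
      _ = 2 ^ (2 * w) := by
            rw [h2w, Nat.mul_sub, mul_one]
            have : 2 ^ w ≤ 2 ^ w * 2 ^ w := Nat.le_mul_of_pos_left _ hpos
            omega
  have p2 : (x >>> w) &&& mk w (L + 1) =
      2 ^ (2 * w) * ((X >>> w) &&& mk w L) + (x / 2 ^ w) % 2 ^ w := by
    rw [mk_succ]
    conv_lhs => rw [e2]
    rw [and_split _ _ _ _ _ hlow hm]
    congr 1
    rw [Nat.and_two_pow_sub_one_eq_mod, Nat.mul_add_mod, Nat.mod_mod]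
  rw [fold1_def, fold1_def, p1, p2]
  ring

theorem ds_fold1 (w : ℕ) (hw : 1 ≤ w) (L : ℕ) : ∀ x : ℕ,
    ds (2 * w) L (fold1 w (mk w L) x) = ds w (2 * L) x := by
  induction L with
  | zero => intro x; rfl
  | succ L ih =>
    intro x
    have hpos : 0 < 2 ^ w := by positivity
    have h2w : 2 ^ (2 * w) = 2 ^ w * 2 ^ w := by rw [two_mul, pow_add]
    have hlt : x % 2 ^ w + (x / 2 ^ w) % 2 ^ w < 2 ^ (2 * w) := by
      have b1 := Nat.mod_lt x hpos
      have b2 := Nat.mod_lt (x / 2 ^ w) hpos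
      have b3 : 2 * 2 ^ w ≤ 2 ^ (2 * w) := by
        rw [← pow_succ']; exact Nat.pow_le_pow_right (by norm_num) (by omega)
      omega
    rw [show 2 * (L + 1) = 2 * L + 1 + 1 by ring]
    show (fold1 w (mk w (L + 1)) x) % 2 ^ (2 * w) + ds (2 * w) L ((fold1 w (mk w (L + 1)) x) / 2 ^ (2 * w))
      = x % 2 ^ w + (x / 2 ^ w % 2 ^ w + ds w (2 * L) (x / 2 ^ w / 2 ^ w))
    rw [fold1_split w L x hw, Nat.mul_add_mod, Nat.mod_eq_of_lt hlt,
      Nat.mul_add_div (by positivity), Nat.div_eq_of_lt hlt, add_zero, ih, Nat.div_div_eq_div_mul,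
      ← h2w, add_assoc]

theorem ds_one (L : ℕ) : ∀ x : ℕ, ds 1 L x = Nat.count (fun i => x.testBit i = true) L := by
  induction L with
  | zero => intro x; simp [ds]
  | succ L ih =>
    intro x
    rw [Nat.count_succ']
    show x % 2 ^ 1 + ds 1 L (x / 2 ^ 1) = _
    rw [ih, pow_one]
    have h1 : (fun i => (x / 2).testBit i = true) = fun k => x.testBit (k + 1) = true := by
      funext i
      rw [Nat.testBit_succ]
    have h2 : x % 2 = if x.testBit 0 = true then 1 else 0 := by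
      rw [Nat.testBit_zero]
      rcases Nat.mod_two_eq_zero_or_one x with h | h <;> simp [h]
    rw [h2, add_comm]
    congr 1
    congr 1

theorem ds_le (w L : ℕ) : ∀ x : ℕ, ds w L x ≤ L * (2 ^ w - 1) := by
  induction L with
  | zero => intro x; simp [ds]
  | succ L ih =>
    intro x
    show x % 2 ^ w + ds w L (x / 2 ^ w) ≤ _
    have h1 := ih (x / 2 ^ w)
    have h2 : x % 2 ^ w ≤ 2 ^ w - 1 := by
      have := Nat.mod_lt x (show 0 < 2 ^ w by positivity); omega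
    rw [add_mul, one_mul]; omega

theorem ds_mod (w L : ℕ) : ∀ x : ℕ, x < 2 ^ (w * L) → x ≡ ds w L x [MOD (2 ^ w - 1)] := by
  induction L with
  | zero =>
    intro x hx
    have : x = 0 := by simpa using hx
    subst this; rfl
  | succ L ih =>
    intro x hx
    show x ≡ x % 2 ^ w + ds w L (x / 2 ^ w) [MOD (2 ^ w - 1)]
    have hx' : x / 2 ^ w < 2 ^ (w * L) := by
      rw [Nat.div_lt_iff_lt_mul (by positivity), ← pow_add]
      calc x < 2 ^ (w * (L + 1)) := hx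
        _ = 2 ^ (w * L + w) := by ring_nf
    have h1 := ih _ hx'
    have h2 : 2 ^ w ≡ 1 [MOD (2 ^ w - 1)] := by
      have : 1 ≤ 2 ^ w := Nat.one_le_two_pow
      exact ((Nat.modEq_iff_dvd' this).2 dvd_rfl).symm
    calc x = 2 ^ w * (x / 2 ^ w) + x % 2 ^ w := (Nat.div_add_mod _ _).symm
      _ ≡ 1 * (x / 2 ^ w) + x % 2 ^ w [MOD (2 ^ w - 1)] := (h2.mul_right _).add_right _
      _ = x % 2 ^ w + x / 2 ^ w := by ring
      _ ≡ x % 2 ^ w + ds w L (x / 2 ^ w) [MOD (2 ^ w - 1)] := h1.add_left _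

theorem fold1_lt (w : ℕ) (hw : 1 ≤ w) (L : ℕ) : ∀ x, fold1 w (mk w L) x < 2 ^ (2 * w * L) := by
  induction L with
  | zero => intro x; simp [fold1_def, mk_zero]
  | succ L ih =>
    intro x
    have hpos : 0 < 2 ^ w := by positivity
    have hlt : x % 2 ^ w + (x / 2 ^ w) % 2 ^ w < 2 ^ (2 * w) := by
      have b1 := Nat.mod_lt x hpos
      have b2 := Nat.mod_lt (x / 2 ^ w) hpos
      have b3 : 2 * 2 ^ w ≤ 2 ^ (2 * w) := by
        rw [← pow_succ']; exact Nat.pow_le_pow_right (by norm_num) (by omega)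
      omega
    rw [fold1_split w L x hw]
    have h := ih (x / 2 ^ (2 * w))
    calc 2 ^ (2 * w) * fold1 w (mk w L) (x / 2 ^ (2 * w)) + (x % 2 ^ w + x / 2 ^ w % 2 ^ w)
        < 2 ^ (2 * w) * fold1 w (mk w L) (x / 2 ^ (2 * w)) + 2 ^ (2 * w) := by omega
      _ = 2 ^ (2 * w) * (fold1 w (mk w L) (x / 2 ^ (2 * w)) + 1) := by ring
      _ ≤ 2 ^ (2 * w) * 2 ^ (2 * w * L) := Nat.mul_le_mul_left _ h
      _ = 2 ^ (2 * w * (L + 1)) := by rw [← pow_add]; ring_nf

/-- Popcount of the lowest `16 L` bits (correct when the result is below 65535). -/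
def pc (m1 m2 m4 m8 x : ℕ) : ℕ :=
  Nat.mod (fold1 8 m8 (fold1 4 m4 (fold1 2 m2 (fold1 1 m1 x)))) 65535

theorem pc_eq (L x : ℕ) (hL : 16 * L < 65535) :
    pc (mk 1 (8 * L)) (mk 2 (4 * L)) (mk 4 (2 * L)) (mk 8 L) x =
      Nat.count (fun i => x.testBit i = true) (16 * L) := by
  set a := fold1 1 (mk 1 (8 * L)) x with ha
  set b := fold1 2 (mk 2 (4 * L)) a with hb
  set c := fold1 4 (mk 4 (2 * L)) b with hc
  set d := fold1 8 (mk 8 L) c with hd
  have e1 : ds 2 (8 * L) a = ds 1 (16 * L) x := by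
    have := ds_fold1 1 le_rfl (8 * L) x
    rw [show 2 * (8 * L) = 16 * L by ring] at this
    exact this
  have e2 : ds 4 (4 * L) b = ds 2 (8 * L) a := by
    have := ds_fold1 2 (by norm_num) (4 * L) a
    rw [show 2 * (4 * L) = 8 * L by ring] at this
    exact this
  have e3 : ds 8 (2 * L) c = ds 4 (4 * L) b := by
    have := ds_fold1 4 (by norm_num) (2 * L) b
    rw [show 2 * (2 * L) = 4 * L by ring] at this
    exact this
  have e4 : ds 16 L d = ds 8 (2 * L) c := ds_fold1 8 (by norm_num) L c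
  have hdlt : d < 2 ^ (16 * L) := fold1_lt 8 (by norm_num) L c
  have h1 := ds_mod 16 L d hdlt
  have h2 : ds 16 L d = Nat.count (fun i => x.testBit i = true) (16 * L) := by
    rw [e4, e3, e2, e1, ds_one]
  rw [h2] at h1
  have h3 : Nat.count (fun i => x.testBit i = true) (16 * L) ≤ 16 * L := Nat.count_le _
  show d % 65535 = _
  have h4 : d % 65535 = Nat.count (fun i => x.testBit i = true) (16 * L) % 65535 := h1
  rw [h4, Nat.mod_eq_of_lt (by omega)]

end Pool.Agent.Helper14.Tri
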