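import Pool.Agent.Helper14.Tri.Sieve

/-! The verified scan of all multiples of 1471. -/

namespace Pool.Agent.Helper14.Tri

/-- Triangular numbers. -/
def tr (m : ℕ) : ℕ := Nat.div (Nat.mul m (Nat.add m 1)) 2

/-- Advance `m` while `tr (m+1) ≤ x`. -/
def adv : ℕ → ℕ → ℕ → ℕ := fun fuel =>
  Nat.rec (fun m _ => m) (fun _ r m x => cond (Nat.ble (tr (Nat.add m 1)) x) (r (Nat.add m 1) x) m) fuel

/-- `tr m < x < tr (m+1)`. -/
def okm (m x : ℕ) : Bool := cond (Nat.ble (Nat.add (tr m) 1) x) (Nat.ble (Nat.add x 1) (tr (Nat.add m 1))) false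

theorem okm_spec {m x : ℕ} (h : okm m x = true) : ∀ j : ℕ, x ≠ j * (j + 1) / 2 := by
  unfold okm at h
  intro j hj
  cases h1 : Nat.ble (Nat.add (tr m) 1) x with
  | false => rw [h1] at h; exact Bool.false_ne_true h
  | true =>
    rw [h1] at h
    have h2 : Nat.ble (Nat.add x 1) (tr (Nat.add m 1)) = true := h
    rw [Nat.ble_eq] at h1 h2
    have h3 : m * (m + 1) / 2 + 1 ≤ x := h1
    have h4 : x + 1 ≤ (m + 1) * (m + 1 + 1) / 2 := h2
    rw [hj] at h3 h4
    rcases le_or_gt j m with h5 | h5
    · have : j * (j + 1) ≤ m * (m + 1) := Nat.mul_le_mul h5 (by omega)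
      omega
    · have : (m + 1) * (m + 1 + 1) ≤ j * (j + 1) := Nat.mul_le_mul h5 (by omega)
      omega

def m1 : ℕ := mk 1 (8 * 92)
def m2 : ℕ := mk 2 (4 * 92)
def m4 : ℕ := mk 4 (2 * 92)
def m8 : ℕ := mk 8 92

/-- Popcount of the lowest 1472 bits. -/
def pp (x : ℕ) : ℕ := pc m1 m2 m4 m8 x

theorem pp_eq (x : ℕ) : pp x = Nat.count (fun i => x.testBit i = true) 1472 :=
  pc_eq 92 x (by norm_num)

/-- Scan of `n` blocks of 1471 bits of `x`; `c` is the current count. -/
def inner : ℕ → ℕ → ℕ → ℕ → (ℕ → ℕ → Bool) → Bool := fun n =>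
  Nat.rec (fun _ c m k => k c m)
    (fun _ r x c m k =>
      (fun s : ℕ => (fun c1 : ℕ => (fun m1 : ℕ => (fun c2 : ℕ => (fun m2 : ℕ =>
        cond (okm m1 c1) (cond (okm m2 c2) (r (Nat.shiftRight x 1471) c2 m2 k) false) false)
        (adv 100 m1 c2)) (Nat.add c (pp s))) (adv 100 m c1))
        (Nat.add c (pp (Nat.mod s (Nat.pow 2 736))))) (Nat.mod x (Nat.pow 2 1471))) n

theorem inner_zero (x c m : ℕ) (k : ℕ → ℕ → Bool) : inner 0 x c m k = k c m := rfl

theorem inner_succ (n x c m : ℕ) (k : ℕ → ℕ → Bool) : inner (n + 1) x c m k =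
    cond (okm (adv 100 m (c + pp (x % 2 ^ 1471 % 2 ^ 736))) (c + pp (x % 2 ^ 1471 % 2 ^ 736)))
      (cond (okm (adv 100 (adv 100 m (c + pp (x % 2 ^ 1471 % 2 ^ 736))) (c + pp (x % 2 ^ 1471)))
        (c + pp (x % 2 ^ 1471)))
        (inner n (x >>> 1471) (c + pp (x % 2 ^ 1471))
          (adv 100 (adv 100 m (c + pp (x % 2 ^ 1471 % 2 ^ 736))) (c + pp (x % 2 ^ 1471))) k) false) false := rfl

/-- Outer loop: `n` super-blocks of 41 blocks. -/
def outer : ℕ → ℕ → ℕ → ℕ → Bool := fun n =>
  Nat.rec (fun _ _ _ => true)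
    (fun _ r x c m => inner 41 (Nat.mod x (Nat.pow 2 60311)) c m
      (fun c' m' => r (Nat.shiftRight x 60311) c' m')) n

theorem outer_zero (x c m : ℕ) : outer 0 x c m = true := rfl

theorem outer_succ (n x c m : ℕ) : outer (n + 1) x c m =
    inner 41 (x % 2 ^ 60311) c m (fun c' m' => outer n (x >>> 60311) c' m') := rfl

/-- Number of set bits of `PM` below `s`, plus one. -/
def cnt (s : ℕ) : ℕ := 1 + Nat.count (fun i => PM.testBit i = true) s

theorem cnt_add (P : ℕ) (a b : ℕ) :
    Nat.count (fun i => P.testBit i = true) (a + b) =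
      Nat.count (fun i => P.testBit i = true) a + Nat.count (fun i => (P >>> a).testBit i = true) b := by
  rw [Nat.count_add]
  congr 2
  funext i
  rw [Nat.testBit_shiftRight]

theorem count_mod (x a n : ℕ) (h : n ≤ a) :
    Nat.count (fun i => (x % 2 ^ a).testBit i = true) n = Nat.count (fun i => x.testBit i = true) n := by
  rw [Nat.count_eq_card_filter_range, Nat.count_eq_card_filter_range]
  congr 1
  apply Finset.filter_congr
  intro i hi
  rw [Finset.mem_range] at hi
  rw [Nat.testBit_mod_two_pow]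
  have : i < a := by omega
  simp [this]

theorem count_mod' (x a n : ℕ) (h : a ≤ n) :
    Nat.count (fun i => (x % 2 ^ a).testBit i = true) n = Nat.count (fun i => x.testBit i = true) a := by
  obtain ⟨d, rfl⟩ := Nat.exists_eq_add_of_le h
  rw [Nat.count_add, count_mod x a a le_rfl]
  have : Nat.count (fun k => (x % 2 ^ a).testBit (a + k) = true) d = 0 := by
    rw [Nat.count_eq_card_filter_range, Finset.card_eq_zero, Finset.filter_eq_empty_iff]
    intro i hi
    rw [Nat.testBit_mod_two_pow]
    simp
  omega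

theorem pp_mod (x a : ℕ) (h : a ≤ 1472) : pp (x % 2 ^ a) = Nat.count (fun i => x.testBit i = true) a := by
  rw [pp_eq, count_mod' x a 1472 h]

/-- Specification of the inner loop. -/
theorem inner_spec (P : ℕ) (k : ℕ → ℕ → Bool) : ∀ (n t c m x : ℕ),
    c = 1 + Nat.count (fun i => P.testBit i = true) (1471 * t) →
    (∀ i, i < 1471 * n → x.testBit i = (P >>> (1471 * t)).testBit i) →
    inner n x c m k = true →
    (∀ u, t ≤ u → u < t + n →
      (∀ j, 1 + Nat.count (fun i => P.testBit i = true) (1471 * u + 736) ≠ j * (j + 1) / 2) ∧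
      (∀ j, 1 + Nat.count (fun i => P.testBit i = true) (1471 * u + 1471) ≠ j * (j + 1) / 2)) ∧
    ∃ m', k (1 + Nat.count (fun i => P.testBit i = true) (1471 * (t + n))) m' = true := by
  intro n
  induction n with
  | zero =>
    intro t c m x hc hx h
    rw [inner_zero] at h
    refine ⟨fun u h1 h2 => by omega, m, ?_⟩
    rw [add_zero, ← hc]; exact h
  | succ n ih =>
    intro t c m x hc hx h
    rw [inner_succ] at h
    have hcnt : ∀ a ≤ 1471, Nat.count (fun i => x.testBit i = true) a =
        Nat.count (fun i => (P >>> (1471 * t)).testBit i = true) a := by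
      intro a ha
      rw [Nat.count_eq_card_filter_range, Nat.count_eq_card_filter_range]
      congr 1
      apply Finset.filter_congr
      intro i hi
      rw [Finset.mem_range] at hi
      rw [hx i (by omega)]
    have e1 : c + pp (x % 2 ^ 1471 % 2 ^ 736) =
        1 + Nat.count (fun i => P.testBit i = true) (1471 * t + 736) := by
      rw [pp_mod _ 736 (by norm_num), count_mod _ _ _ (by norm_num), hcnt 736 (by norm_num), hc,
        cnt_add P (1471 * t) 736]
      ring
    have e2 : c + pp (x % 2 ^ 1471) =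
        1 + Nat.count (fun i => P.testBit i = true) (1471 * t + 1471) := by
      rw [pp_mod _ 1471 (by norm_num), hcnt 1471 le_rfl, hc, cnt_add P (1471 * t) 1471]
      ring
    rw [e1, e2] at h
    generalize hM1 : adv 100 m (1 + Nat.count (fun i => P.testBit i = true) (1471 * t + 736)) = M1 at h
    generalize hM2 : adv 100 M1 (1 + Nat.count (fun i => P.testBit i = true) (1471 * t + 1471)) = M2 at h
    cases h1 : okm M1 (1 + Nat.count (fun i => P.testBit i = true) (1471 * t + 736)) with
    | false => rw [h1] at h; exact absurd h (by simp)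
    | true =>
      rw [h1] at h
      cases h2 : okm M2 (1 + Nat.count (fun i => P.testBit i = true) (1471 * t + 1471)) with
      | false => rw [h2] at h; exact absurd h (by simp)
      | true =>
        rw [h2] at h
        have h3 : inner n (x >>> 1471) (1 + Nat.count (fun i => P.testBit i = true) (1471 * t + 1471)) M2 k = true := h
        have hx' : ∀ i, i < 1471 * n → (x >>> 1471).testBit i = (P >>> (1471 * (t + 1))).testBit i := by
          intro i hi
          rw [Nat.testBit_shiftRight, hx _ (by omega), Nat.testBit_shiftRight, Nat.testBit_shiftRight]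
          have hh : 1471 * t + (1471 + i) = 1471 * (t + 1) + i := by ring
          rw [hh]
        obtain ⟨h4, m', h5⟩ := ih (t + 1) _ M2 (x >>> 1471) (by rw [mul_add, mul_one]) hx' h3
        refine ⟨?_, m', ?_⟩
        · intro u hu1 hu2
          rcases Nat.eq_or_lt_of_le hu1 with hu | hu
          · subst hu
            exact ⟨okm_spec h1, okm_spec h2⟩
          · exact h4 u (by omega) (by omega)
        · rw [show t + (n + 1) = t + 1 + n by ring]; exact h5

theorem outer_spec (P : ℕ) : ∀ (n t c m x : ℕ),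
    c = 1 + Nat.count (fun i => P.testBit i = true) (1471 * (41 * t)) →
    x = P >>> (60311 * t) →
    outer n x c m = true →
    (∀ u, 41 * t ≤ u → u < 41 * (t + n) →
      (∀ j, 1 + Nat.count (fun i => P.testBit i = true) (1471 * u + 736) ≠ j * (j + 1) / 2) ∧
      (∀ j, 1 + Nat.count (fun i => P.testBit i = true) (1471 * u + 1471) ≠ j * (j + 1) / 2)) := by
  intro n
  induction n with
  | zero => intro t c m x hc hx h u h1 h2; omega
  | succ n ih =>
    intro t c m x hc hx h
    rw [outer_succ] at h
    have hx' : ∀ i, i < 1471 * 41 → (x % 2 ^ 60311).testBit i = (P >>> (1471 * (41 * t))).testBit i := by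
      intro i hi
      rw [Nat.testBit_mod_two_pow, hx, Nat.testBit_shiftRight, Nat.testBit_shiftRight]
      have : i < 60311 := by omega
      simp only [this, decide_true, Bool.true_and]
      congr 1; ring
    obtain ⟨h1, m', h2⟩ := inner_spec P _ 41 (41 * t) c m (x % 2 ^ 60311) hc hx' h
    have h3 := ih (t + 1) _ m' (x >>> 60311) (by ring_nf) (by
      rw [hx, ← Nat.shiftRight_add]; congr 1) h2
    intro u hu1 hu2
    rcases lt_or_ge u (41 * t + 41) with hu | hu
    · exact h1 u hu1 hu
    · exact h3 u (by omega) (by rw [show t + 1 + n = t + (n + 1) by ring]; exact hu2)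

end Pool.Agent.Helper14.Tri
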