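import Pool.Agent.Helper14.Tri.Count

/-! The counterexample `n = 1471`. -/

namespace Pool.Agent.Helper14.Tri

/-- The kernel runs the scan over the 3075 blocks. -/
theorem run : outer 75 PM 1 0 = true := by decide +kernel

/-- The first 6151 odd numbers contain at least 1470 primes. -/
theorem run2 : Nat.ble 1470 (pc (mk 1 (8 * 385)) (mk 2 (4 * 385)) (mk 4 (2 * 385)) (mk 8 385)
    (Nat.mod PM (Nat.pow 2 6151))) = true := by decide +kernel

theorem count_even (s : ℕ) (h2 : 2 ≤ s) (hs : s ≤ SZ) :
    Nat.count Nat.Prime (2 * s) = 1 + Nat.count (fun i => PM.testBit i = true) s := by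
  induction s, h2 using Nat.le_induction with
  | base =>
    have h0 : Nat.count Nat.Prime (2 * 2) = 2 := by decide
    rw [h0, Nat.count_succ, Nat.count_succ, Nat.count_zero]
    have a0 : ¬ (PM.testBit 0 = true) := by
      rw [PM_testBit]; rintro ⟨-, h⟩; exact Nat.not_prime_one h
    have a1 : PM.testBit 1 = true := by
      rw [PM_testBit]; exact ⟨by unfold SZ; norm_num, by norm_num⟩
    rw [if_neg a0, if_pos a1]
  | succ s h2 ih =>
    have ih' := ih (by omega)
    rw [show 2 * (s + 1) = 2 * s + 1 + 1 by ring, Nat.count_succ, Nat.count_succ, ih', Nat.count_succ]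
    have b0 : ¬ (2 * s).Prime := Nat.not_prime_mul (by omega) (by omega)
    rw [if_neg b0]
    by_cases hp : (2 * s + 1).Prime
    · have : PM.testBit s = true := (PM_testBit s).2 ⟨by omega, hp⟩
      rw [if_pos hp, if_pos this]; ring
    · have : ¬ PM.testBit s = true := fun h => hp ((PM_testBit s).1 h).2
      rw [if_neg hp, if_neg this]; ring

theorem scan (u : ℕ) (hu : u < 3075) :
    (∀ j, 1 + Nat.count (fun i => PM.testBit i = true) (1471 * u + 736) ≠ j * (j + 1) / 2) ∧
    (∀ j, 1 + Nat.count (fun i => PM.testBit i = true) (1471 * u + 1471) ≠ j * (j + 1) / 2) := by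
  have h : ∀ P : ℕ, outer 75 P 1 0 = true → ∀ u < 3075,
    (∀ j, 1 + Nat.count (fun i => P.testBit i = true) (1471 * u + 736) ≠ j * (j + 1) / 2) ∧
    (∀ j, 1 + Nat.count (fun i => P.testBit i = true) (1471 * u + 1471) ≠ j * (j + 1) / 2) := by
    intro P hP u hu
    exact outer_spec P 75 0 1 0 P (by simp) (by simp) hP u (by omega) (by omega)
  exact h PM run u hu

theorem nontri (k j : ℕ) (hk1 : 1 ≤ k) (hk2 : k ≤ 6150) :
    Nat.primeCounting (k * 1471) ≠ j * (j + 1) / 2 := by
  have hSZ : SZ = 4523325 := rfl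
  rcases Nat.even_or_odd' k with ⟨v, hv | hv⟩
  · obtain ⟨u, rfl⟩ : ∃ u, v = u + 1 := ⟨v - 1, by omega⟩
    have h := (scan u (by omega)).2 j
    have e : Nat.primeCounting (k * 1471) = 1 + Nat.count (fun i => PM.testBit i = true) (1471 * u + 1471) := by
      have h1 : Nat.primeCounting (k * 1471) = Nat.count Nat.Prime (k * 1471 + 1) := rfl
      rw [h1, Nat.count_succ]
      have h2 : k * 1471 = 2 * (1471 * u + 1471) := by rw [hv]; ring
      rw [h2, count_even _ (by omega) (by omega), if_neg (Nat.not_prime_mul (by omega) (by omega)), add_zero]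
    rw [e]; exact h
  · have h := (scan v (by omega)).1 j
    have e : Nat.primeCounting (k * 1471) = 1 + Nat.count (fun i => PM.testBit i = true) (1471 * v + 736) := by
      have h1 : Nat.primeCounting (k * 1471) = Nat.count Nat.Prime (k * 1471 + 1) := rfl
      have h2 : k * 1471 + 1 = 2 * (1471 * v + 736) := by rw [hv]; ring
      rw [h1, h2, count_even _ (by omega) (by omega)]
    rw [e]; exact h

theorem p1471 : Nat.nth Nat.Prime 1470 < 12302 := by
  apply Nat.nth_lt_of_lt_count
  have h : ∀ P : ℕ, Nat.ble 1470 (pc (mk 1 (8 * 385)) (mk 2 (4 * 385)) (mk 4 (2 * 385)) (mk 8 385)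
    (Nat.mod P (Nat.pow 2 6151))) = true → 1470 ≤ Nat.count (fun i => P.testBit i = true) 6151 := by
    intro P hP
    rw [Nat.ble_eq, pc_eq 385 _ (by norm_num)] at hP
    have h1 : Nat.count (fun i => (P % 2 ^ 6151).testBit i = true) (16 * 385) =
      Nat.count (fun i => P.testBit i = true) 6151 := count_mod' P 6151 (16 * 385) (by norm_num)
    exact le_of_le_of_eq hP h1
  have h2 := h PM run2
  have hSZ : SZ = 4523325 := rfl
  have h3 := count_even 6151 (by norm_num) (by omega)
  have h4 : (2 * 6151 : ℕ) = 12302 := by norm_num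
  rw [h4] at h3
  rw [h3]; omega

end Pool.Agent.Helper14.Tri
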