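import Pool.Agent.Helper14.Tri.Bits

/-! A sieve on one big natural number: bit `i` stands for the odd number `2 i + 1`. -/

namespace Pool.Agent.Helper14.Tri

/-- Number of odd numbers treated. -/
def SZ : ℕ := 4523325

/-- No divisor `d` with `2 ≤ d ≤ 54`, `d < q`. -/
def isP (q : ℕ) : Bool :=
  Nat.rec true (fun d r => cond (Nat.beq (Nat.mod q (d + 2)) 0) (cond (Nat.ble q (d + 2)) r false) r) 53

/-- Odd multiples `≥ 3q` of the odd number `q`. -/
def msk (q : ℕ) : ℕ :=
  Nat.shiftLeft (Nat.div (Nat.pow 2 (Nat.mul q (Nat.add (Nat.div SZ q) 1))) (Nat.sub (Nat.pow 2 q) 1))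
    (Nat.div (Nat.sub (Nat.mul 3 q) 1) 2)

/-- List of odd numbers `q = 2j+1` with `1 ≤ j < n` passing the test. -/
def plist : ℕ → List ℕ := fun n =>
  Nat.rec [] (fun j r => cond (Nat.beq j 0) r (cond (isP (2 * j + 1)) ((2 * j + 1) :: r) r)) n

def comp (l : List ℕ) : ℕ := List.rec 1 (fun q _ r => Nat.lor r (msk q)) l

theorem isP_of_prime {q : ℕ} (hq : q.Prime) : isP q = true := by
  unfold isP
  have : ∀ n : ℕ, (Nat.rec true (fun d r => cond (Nat.beq (Nat.mod q (d + 2)) 0)
      (cond (Nat.ble q (d + 2)) r false) r) n : Bool) = true := by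
    intro n
    induction n with
    | zero => rfl
    | succ n ih =>
      show cond (Nat.beq (Nat.mod q (n + 2)) 0) (cond (Nat.ble q (n + 2)) _ false) _ = true
      rw [ih]
      cases h : Nat.beq (Nat.mod q (n + 2)) 0 with
      | false => rfl
      | true =>
        have h1 : q % (n + 2) = 0 := Nat.eq_of_beq_eq_true h
        have h2 : n + 2 ∣ q := Nat.dvd_of_mod_eq_zero h1
        have h3 : n + 2 = q := by
          rcases (Nat.dvd_prime hq).1 h2 with h | h
          · omega
          · exact h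
        have h4 : Nat.ble q (n + 2) = true := by rw [Nat.ble_eq]; omega
        simp [h4]
  exact this 53

theorem mem_plist (n : ℕ) : ∀ q, q ∈ plist n ↔ ∃ j, 1 ≤ j ∧ j < n ∧ q = 2 * j + 1 ∧ isP q = true := by
  induction n with
  | zero => intro q; simp [plist]
  | succ n ih =>
    intro q
    have e : plist (n + 1) = cond (Nat.beq n 0) (plist n) (cond (isP (2 * n + 1)) ((2 * n + 1) :: plist n) (plist n)) := rfl
    rw [e]
    constructor
    · intro h
      by_cases h0 : n = 0
      · subst h0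
        have : q ∈ plist 0 := h
        simp [plist] at this
      · have hb : Nat.beq n 0 = false := by
          cases n with
          | zero => exact absurd rfl h0
          | succ k => rfl
        rw [hb] at h
        cases hp : isP (2 * n + 1) with
        | false =>
          rw [hp] at h
          obtain ⟨j, h1, h2, h3, h4⟩ := (ih q).1 h
          exact ⟨j, h1, by omega, h3, h4⟩
        | true =>
          rw [hp] at h
          rcases List.mem_cons.1 h with h | h
          · exact ⟨n, by omega, by omega, h, by rw [h]; exact hp⟩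
          · obtain ⟨j, h1, h2, h3, h4⟩ := (ih q).1 h
            exact ⟨j, h1, by omega, h3, h4⟩
    · rintro ⟨j, h1, h2, h3, h4⟩
      have hb : Nat.beq n 0 = false := by
        cases n with
        | zero => omega
        | succ k => rfl
      rw [hb]
      by_cases hj : j = n
      · subst hj
        rw [← h3, h4]
        exact List.mem_cons_self
      · have := (ih q).2 ⟨j, h1, by omega, h3, h4⟩
        cases hp : isP (2 * n + 1) with
        | false => exact this
        | true => exact List.mem_cons_of_mem _ this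

theorem comb_lt {p : ℕ} (hp : 2 ≤ p) (L : ℕ) : 2 ^ (p * L) / (2 ^ p - 1) < 2 ^ (p * L) := by
  apply Nat.div_lt_self (by positivity)
  have : 2 ^ 2 ≤ 2 ^ p := Nat.pow_le_pow_right (by norm_num) hp
  omega

theorem comb_testBit {p : ℕ} (hp : 2 ≤ p) (L : ℕ) : ∀ i,
    (2 ^ (p * L) / (2 ^ p - 1)).testBit i = true ↔ p ∣ i ∧ i < p * L := by
  have hpp : 4 ≤ 2 ^ p := by
    have : 2 ^ 2 ≤ 2 ^ p := Nat.pow_le_pow_right (by norm_num) hp
    omega
  induction L with
  | zero =>
    intro i
    rw [mul_zero, pow_zero, Nat.div_eq_of_lt (by omega)]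
    simp
  | succ L ih =>
    intro i
    have e : 2 ^ (p * (L + 1)) / (2 ^ p - 1) = 2 ^ (p * L) + 2 ^ (p * L) / (2 ^ p - 1) := by
      have : 2 ^ (p * (L + 1)) = (2 ^ p - 1) * 2 ^ (p * L) + 2 ^ (p * L) := by
        rw [mul_add, mul_one, pow_add]
        have : 2 ^ p = (2 ^ p - 1) + 1 := by omega
        conv_lhs => rw [this]
        ring
      rw [this, Nat.mul_add_div (by omega)]
    rw [e]
    have hlt := comb_lt hp L
    rcases lt_trichotomy i (p * L) with h | h | h
    · rw [Nat.testBit_two_pow_add_gt h, ih]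
      constructor
      · rintro ⟨h1, h2⟩; exact ⟨h1, by rw [mul_add]; omega⟩
      · rintro ⟨h1, h2⟩; exact ⟨h1, h⟩
    · rw [h, Nat.testBit_two_pow_add_eq, Nat.testBit_lt_two_pow hlt]
      have hm : p * (L + 1) = p * L + p := by ring
      rw [hm]
      simp
      omega
    · have hb : 2 ^ (p * L) + 2 ^ (p * L) / (2 ^ p - 1) < 2 ^ i := by
        calc 2 ^ (p * L) + 2 ^ (p * L) / (2 ^ p - 1) < 2 ^ (p * L) + 2 ^ (p * L) := by omega
          _ = 2 ^ (p * L + 1) := by ring
          _ ≤ 2 ^ i := Nat.pow_le_pow_right (by norm_num) h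
      rw [Nat.testBit_lt_two_pow hb]
      simp only [Bool.false_eq_true, false_iff, not_and, not_lt]
      intro hd
      obtain ⟨c, rfl⟩ := hd
      have : L < c := by
        by_contra hc
        have : p * c ≤ p * L := Nat.mul_le_mul_left _ (by omega)
        omega
      exact Nat.mul_le_mul_left _ this

theorem msk_testBit {j : ℕ} (hj : 1 ≤ j) (i : ℕ) (hi : i < SZ) :
    (msk (2 * j + 1)).testBit i = true ↔ ∃ c, 2 * i + 1 = (2 * j + 1) * (2 * c + 3) := by
  have e : msk (2 * j + 1) = (2 ^ ((2 * j + 1) * (SZ / (2 * j + 1) + 1)) / (2 ^ (2 * j + 1) - 1)) <<<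
      ((3 * (2 * j + 1) - 1) / 2) := rfl
  rw [e, Nat.testBit_shiftLeft]
  simp only [Bool.and_eq_true, decide_eq_true_eq]
  rw [comb_testBit (by omega)]
  have h3 : (3 * (2 * j + 1) - 1) / 2 = 3 * j + 1 := by omega
  rw [h3]
  constructor
  · rintro ⟨h1, ⟨c, hc⟩, h2⟩
    refine ⟨c, ?_⟩
    have : i = 3 * j + 1 + (2 * j + 1) * c := by omega
    rw [this]; ring
  · rintro ⟨c, hc⟩
    have h5 : i = 3 * j + 1 + (2 * j + 1) * c := by
      have : (2 * j + 1) * (2 * c + 3) = 2 * ((2 * j + 1) * c) + 3 * (2 * j + 1) := by ring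
      omega
    refine ⟨by omega, ⟨c, by omega⟩, ?_⟩
    have h6 : SZ < (2 * j + 1) * (SZ / (2 * j + 1) + 1) := by
      have := Nat.lt_mul_div_succ SZ (show 0 < 2 * j + 1 by omega)
      exact this
    omega

theorem comp_testBit (l : List ℕ) (i : ℕ) :
    (comp l).testBit i = true ↔ i = 0 ∨ ∃ q ∈ l, (msk q).testBit i = true := by
  induction l with
  | nil =>
    show (2 ^ 0 : ℕ).testBit i = true ↔ _
    rw [Nat.testBit_two_pow]
    simp
    omega
  | cons q l ih =>
    have e : comp (q :: l) = comp l ||| msk q := rfl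
    rw [e, Nat.testBit_or, Bool.or_eq_true, ih]
    simp only [List.mem_cons, exists_eq_or_imp]
    rw [or_assoc, or_comm (a := ∃ q ∈ l, (msk q).testBit i = true)]

/-- Bit `i < SZ` of the composite mask is off iff `2i+1` is prime. -/
theorem comp_prime (i : ℕ) (hi : i < SZ) :
    (comp (plist 1504)).testBit i = false ↔ (2 * i + 1).Prime := by
  rw [← Bool.not_eq_true, comp_testBit]
  constructor
  · intro h
    push Not at h
    obtain ⟨h0, h⟩ := h
    by_contra hnp
    set N := 2 * i + 1 with hN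
    have hN1 : N ≠ 1 := by omega
    have hq := Nat.minFac_prime hN1
    set q := N.minFac with hqd
    have hqN : q ∣ N := Nat.minFac_dvd N
    obtain ⟨r, hr⟩ := hqN
    have hqq : q ^ 2 ≤ N := Nat.minFac_sq_le_self (by omega) hnp
    have hNlt : N < 9046650 := by
      have : SZ = 4523325 := rfl
      omega
    have hq3008 : q < 3008 := by
      by_contra hc
      have : 3008 ^ 2 ≤ q ^ 2 := Nat.pow_le_pow_left (by omega) 2
      omega
    have hodd : N % 2 = 1 := by omega
    have hqodd : q % 2 = 1 := by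
      rcases Nat.mod_two_eq_zero_or_one q with h2 | h2
      · exfalso
        have : (2 : ℕ) ∣ N := (Nat.dvd_of_mod_eq_zero h2).trans ⟨r, hr⟩
        omega
      · exact h2
    have hrodd : r % 2 = 1 := by
      rcases Nat.mod_two_eq_zero_or_one r with h2 | h2
      · exfalso
        have : (2 : ℕ) ∣ N := (Nat.dvd_of_mod_eq_zero h2).trans ⟨q, by rw [hr, mul_comm]⟩
        omega
      · exact h2
    have hr1 : r ≠ 1 := by
      rintro rfl
      apply hnp
      rw [hr, mul_one]; exact hq
    have hq2 := hq.two_le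
    obtain ⟨j, hj⟩ : ∃ j, q = 2 * j + 1 := ⟨q / 2, by omega⟩
    obtain ⟨c, hc⟩ : ∃ c, r = 2 * c + 3 := ⟨(r - 3) / 2, by omega⟩
    refine h q ((mem_plist 1504 q).2 ⟨j, by omega, by omega, hj, isP_of_prime hq⟩) ?_
    rw [hj, msk_testBit (by omega) i hi]
    exact ⟨c, by rw [← hj, ← hc, ← hr]⟩
  · intro hp h
    rcases h with h | ⟨q, hq, h⟩
    · subst h
      exact Nat.not_prime_one hp
    · obtain ⟨j, h1, h2, h3, h4⟩ := (mem_plist 1504 q).1 hq
      rw [h3, msk_testBit h1 i hi] at h
      obtain ⟨c, hc⟩ := h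
      rw [hc] at hp
      exact Nat.not_prime_mul (by omega) (by omega) hp

/-- The complement of `c` below `2^s`. -/
def pmOf (c s : ℕ) : ℕ :=
  Nat.xor (Nat.land c (Nat.sub (Nat.pow 2 s) 1)) (Nat.sub (Nat.pow 2 s) 1)

theorem pmOf_testBit (c s i : ℕ) :
    (pmOf c s).testBit i = true ↔ i < s ∧ c.testBit i = false := by
  show ((c &&& (2 ^ s - 1)) ^^^ (2 ^ s - 1)).testBit i = true ↔ _
  rw [Nat.testBit_xor, Nat.testBit_and, Nat.testBit_two_pow_sub_one]
  by_cases hi : i < s
  · simp [hi]
  · simp [hi]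

/-- Prime mask. -/
def PM : ℕ := pmOf (comp (plist 1504)) SZ

theorem PM_testBit (i : ℕ) : PM.testBit i = true ↔ i < SZ ∧ (2 * i + 1).Prime := by
  unfold PM
  have h := comp_prime i
  revert h
  generalize comp (plist 1504) = c
  intro h
  constructor
  · intro h0
    have h1 := (pmOf_testBit c SZ i).1 h0
    exact ⟨h1.1, (h h1.1).1 h1.2⟩
  · rintro ⟨h1, h2⟩
    exact (pmOf_testBit c SZ i).2 ⟨h1, (h h1).2 h2⟩

end Pool.Agent.Helper14.Tri
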